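import Pool.Agent.N343.AM.Stm

/-! Leaf AM/DIS: the metric of the sequence space. -/

set_option autoImplicit false

namespace Pool.Agent.N531.AM

open Pool.Agent.N343.AM

theorem dd_self (x : ℕ → Bool) : dd x x = 0 :=
  (PiNat.metricSpace (E := fun _ : ℕ => Bool)).dist_self x

theorem dd_ne {x y : ℕ → Bool} (h : x ≠ y) :
    dd x y = (1 / 2 : ℝ) ^ PiNat.firstDiff (E := fun _ : ℕ => Bool) x y :=
  PiNat.dist_eq_of_ne (E := fun _ : ℕ => Bool) h

theorem main : S_DIS := by
  refine ⟨?_, ?_, ?_⟩
  · intro x y j hj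
    have hne : x ≠ y := fun h => hj (congrFun h j)
    rw [dd_ne hne]
    apply pow_le_pow_of_le_one (by norm_num) (by norm_num)
    by_contra hlt
    exact hj (PiNat.apply_eq_of_lt_firstDiff (E := fun _ : ℕ => Bool) (not_le.mp hlt))
  · intro x y J hJ
    by_cases hne : x = y
    · subst hne
      rw [dd_self]
      positivity
    · rw [dd_ne hne]
      apply pow_le_pow_of_le_one (by norm_num) (by norm_num)
      by_contra hlt
      exact PiNat.apply_firstDiff_ne (E := fun _ : ℕ => Bool) hne (hJ _ (not_le.mp hlt))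
  · intro x y
    by_cases hne : x = y
    · subst hne
      rw [dd_self]
      exact ⟨le_refl 0, zero_le_one⟩
    · rw [dd_ne hne]
      exact ⟨by positivity, pow_le_one₀ (by norm_num) (by norm_num)⟩

end Pool.Agent.N531.AM
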